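import Pool.Agent.H10.LDV.Stmts

set_option autoImplicit false

namespace Pool.LDV

open Finset Pool.Agent.H98.ABCR Pool.SHA Pool.BL

private lemma coord_min0_w {v : ℕ × ℕ} (h : v.1 ≤ v.2) : ∀ i, coord v 0 ≤ coord v i := by
  intro i
  fin_cases i <;> simp [coord] <;> omega

private lemma coord_min1_w {v : ℕ × ℕ} (h : v.2 ≤ v.1) : ∀ i, coord v 1 ≤ coord v i := by
  intro i
  fin_cases i <;> simp [coord] <;> omega

theorem ldw_thm (hWB : S_LDC) : S_LDW := by
  intro θ κ ε hθ hθκ hκ hε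
  obtain ⟨δ, C0, hδ, hC0, hW⟩ := hWB κ ε hκ hε
  classical
  obtain ⟨N, hN⟩ : ∃ N : ℕ, N = ⌊(κ - θ) / δ⌋₊ + 1 := ⟨_, rfl⟩
  have hN1 : 1 ≤ N := by omega
  have hN1' : (1 : ℝ) ≤ N := by exact_mod_cast hN1
  refine ⟨2 * N * C0, by nlinarith, ?_⟩
  intro X F hX hF
  have hlog : 0 ≤ Real.log X := Real.log_nonneg hX
  let G : ℕ → Fin 3 → Finset (ℕ × ℕ) := fun i a => F.filter (fun v =>
    (θ + i * δ) * Real.log X ≤ hh v ∧ hh v ≤ (θ + i * δ + δ) * Real.log X ∧
      ∀ i', coord v a ≤ coord v i')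
  have hcov : F ⊆ (Finset.range N).biUnion (fun i => G i 0 ∪ G i 1) := by
    intro v hv
    obtain ⟨hv1, hv2, hv3, hv4⟩ := hF v hv
    have hi : ∃ i ∈ Finset.range N, (θ + (i : ℕ) * δ) * Real.log X ≤ hh v ∧
        hh v ≤ (θ + i * δ + δ) * Real.log X := by
      rcases hlog.eq_or_lt with h0 | h0
      · refine ⟨0, by simp; omega, ?_, ?_⟩
        · rw [← h0] at hv3 ⊢; linarith
        · rw [← h0] at hv4 ⊢; linarith
      · obtain ⟨t, ht⟩ : ∃ t : ℝ, t = hh v / Real.log X := ⟨_, rfl⟩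
        have ht' : hh v = t * Real.log X := by rw [ht]; field_simp
        have ht1 : θ ≤ t := by
          rw [ht, le_div_iff₀ h0]; exact hv3
        have ht2 : t ≤ κ := by
          rw [ht, div_le_iff₀ h0]; exact hv4
        have hq0 : 0 ≤ (t - θ) / δ := div_nonneg (by linarith) hδ.le
        have hq1 := Nat.floor_le hq0
        have hq2 := (Nat.lt_floor_add_one ((t - θ) / δ)).le
        rw [le_div_iff₀ hδ] at hq1
        rw [div_le_iff₀ hδ] at hq2
        refine ⟨⌊(t - θ) / δ⌋₊, ?_, ?_, ?_⟩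
        · rw [Finset.mem_range, hN]
          have : ⌊(t - θ) / δ⌋₊ ≤ ⌊(κ - θ) / δ⌋₊ := by
            apply Nat.floor_le_floor
            gcongr
          omega
        · rw [ht']
          apply mul_le_mul_of_nonneg_right _ h0.le
          linarith
        · rw [ht']
          apply mul_le_mul_of_nonneg_right _ h0.le
          nlinarith
    obtain ⟨i, hi1, hi2, hi3⟩ := hi
    rw [Finset.mem_biUnion]
    refine ⟨i, hi1, ?_⟩
    rw [Finset.mem_union]
    rcases le_total v.1 v.2 with h | h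
    · left
      exact Finset.mem_filter.mpr ⟨hv, hi2, hi3, coord_min0_w h⟩
    · right
      exact Finset.mem_filter.mpr ⟨hv, hi2, hi3, coord_min1_w h⟩
  have hG : ∀ i ∈ Finset.range N, ∀ a : Fin 3, a ≠ 2 →
      ((G i a).card : ℝ) ≤ C0 * X ^ (max (1 - θ) (3 / 5) + ε) := by
    intro i hi a ha
    have hiN : i ≤ ⌊(κ - θ) / δ⌋₊ := by
      rw [Finset.mem_range, hN] at hi; omega
    have hiδ : (i : ℝ) * δ ≤ κ - θ := by
      have h1 : (i : ℝ) ≤ (⌊(κ - θ) / δ⌋₊ : ℝ) := by exact_mod_cast hiN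
      have h2 := Nat.floor_le (div_nonneg (sub_nonneg.mpr hθκ) hδ.le)
      have h3 : (i : ℝ) ≤ (κ - θ) / δ := h1.trans h2
      rwa [le_div_iff₀ hδ] at h3
    have hi0 : 0 ≤ (i : ℝ) * δ := by positivity
    have h := hW X (θ + i * δ) (G i a) a hX (by linarith) (by linarith) ha (by
      intro v hv
      obtain ⟨hv0, hv1, hv2, hv3⟩ := Finset.mem_filter.mp hv
      obtain ⟨h1, h2, _, _⟩ := hF v hv0
      exact ⟨h1, h2, hv1, hv2, hv3⟩)
    refine h.trans ?_
    apply mul_le_mul_of_nonneg_left _ (by linarith)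
    apply Real.rpow_le_rpow_of_exponent_le hX
    have : max (1 - (θ + i * δ)) (3 / 5) ≤ max (1 - θ) (3 / 5) := max_le_max (by linarith) le_rfl
    linarith
  have hcard : (F.card : ℝ) ≤ ∑ i ∈ Finset.range N, (((G i 0).card : ℝ) + (G i 1).card) := by
    have h1 : F.card ≤ ∑ i ∈ Finset.range N, ((G i 0).card + (G i 1).card) := by
      refine (Finset.card_le_card hcov).trans (Finset.card_biUnion_le.trans ?_)
      exact Finset.sum_le_sum fun i _ => Finset.card_union_le _ _
    exact_mod_cast h1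
  refine hcard.trans ?_
  calc ∑ i ∈ Finset.range N, (((G i 0).card : ℝ) + (G i 1).card)
      ≤ ∑ _i ∈ Finset.range N, (2 * (C0 * X ^ (max (1 - θ) (3 / 5) + ε))) := by
        apply Finset.sum_le_sum
        intro i hi
        have h0 := hG i hi 0 (by decide)
        have h1 := hG i hi 1 (by decide)
        linarith
    _ = 2 * N * C0 * X ^ (max (1 - θ) (3 / 5) + ε) := by
        rw [Finset.sum_const, Finset.card_range, nsmul_eq_mul]
        ring

end Pool.LDV
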